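import Pool.Agent.Helper77.HY.St

set_option autoImplicit false

namespace Pool.Agent.Helper82.HY.CNT

open Pool.Agent.Helper35.PM Pool.Agent.Helper77.HY

theorem dg_eq {V : Type} (G : SimpleGraph V) (v : V) (U : Finset V) [DecidablePred (G.Adj v)] :
    dg G v U = (U.filter (G.Adj v)).card := by
  unfold dg
  rw [← Set.ncard_coe_finset]
  congr 1
  ext u
  simp

theorem cnt1 (V : Type) [Finite V] (G : SimpleGraph V) (U U' : Finset V) (h : U ⊆ U') : eN G U ≤ eN G U' := by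
  unfold eN
  refine Set.ncard_le_ncard ?_ (Set.toFinite _)
  rintro e ⟨h1, h2⟩
  exact ⟨h1, fun v hv => h (h2 v hv)⟩

theorem cnt2 (V : Type) [Finite V] [DecidableEq V] (G : SimpleGraph V) (U T : Finset V) (h : Disjoint U T) :
    eN G (U ∪ T) = eN G U + eN G T + ∑ t ∈ T, dg G t U := by
  classical
  set X : Finset (Sym2 V) := ((T ×ˢ U).filter fun p => G.Adj p.1 p.2).image (fun p => s(p.1, p.2)) with hX
  have hne : ∀ a ∈ U, ∀ b ∈ T, a ≠ b := fun a ha b hb hab => Finset.disjoint_left.1 h ha (hab ▸ hb)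
  have hXc : X.card = ∑ t ∈ T, dg G t U := by
    rw [hX, Finset.card_image_of_injOn]
    · rw [Finset.card_filter, Finset.sum_product]
      refine Finset.sum_congr rfl (fun t _ => ?_)
      rw [dg_eq, Finset.card_filter]
    · rintro ⟨t, u⟩ h1 ⟨t', u'⟩ h2 h3
      rw [Finset.mem_coe, Finset.mem_filter, Finset.mem_product] at h1 h2
      simp only [Sym2.eq_iff] at h3
      rcases h3 with ⟨h3, h4⟩ | ⟨h3, h4⟩
      · rw [h3, h4]
      · exfalso
        exact hne u' h2.1.2 t h1.1.1 h3.symm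
  have hset : {e : Sym2 V | e ∈ G.edgeSet ∧ ∀ v ∈ e, v ∈ U ∪ T} =
      ({e : Sym2 V | e ∈ G.edgeSet ∧ ∀ v ∈ e, v ∈ U} ∪ {e : Sym2 V | e ∈ G.edgeSet ∧ ∀ v ∈ e, v ∈ T}) ∪ (X : Set (Sym2 V)) := by
    ext e
    induction e using Sym2.ind with
    | _ a b =>
      simp only [Set.mem_ofPred_eq, SimpleGraph.mem_edgeSet, Sym2.mem_iff, forall_eq_or_imp, forall_eq, Finset.mem_union,
        Set.mem_union, Finset.mem_coe, hX, Finset.mem_image, Finset.mem_filter, Finset.mem_product, Prod.exists]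
      constructor
      · rintro ⟨hab, ha, hb⟩
        rcases ha with ha | ha <;> rcases hb with hb | hb
        · exact Or.inl (Or.inl ⟨hab, ha, hb⟩)
        · exact Or.inr ⟨b, a, ⟨⟨hb, ha⟩, hab.symm⟩, Sym2.eq_swap⟩
        · exact Or.inr ⟨a, b, ⟨⟨ha, hb⟩, hab⟩, rfl⟩
        · exact Or.inl (Or.inr ⟨hab, ha, hb⟩)
      · rintro ((⟨hab, ha, hb⟩ | ⟨hab, ha, hb⟩) | ⟨t, u, ⟨⟨ht, hu⟩, htu⟩, he⟩)
        · exact ⟨hab, Or.inl ha, Or.inl hb⟩
        · exact ⟨hab, Or.inr ha, Or.inr hb⟩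
        · rw [Sym2.eq_iff] at he
          rcases he with ⟨rfl, rfl⟩ | ⟨rfl, rfl⟩
          · exact ⟨htu, Or.inr ht, Or.inl hu⟩
          · exact ⟨htu.symm, Or.inl hu, Or.inr ht⟩
  have hd1 : Disjoint {e : Sym2 V | e ∈ G.edgeSet ∧ ∀ v ∈ e, v ∈ U} {e : Sym2 V | e ∈ G.edgeSet ∧ ∀ v ∈ e, v ∈ T} := by
    rw [Set.disjoint_left]
    intro e
    induction e using Sym2.ind with
    | _ a b =>
      rintro ⟨_, h1⟩ ⟨_, h2⟩
      exact hne a (h1 a (Sym2.mem_mk_left a b)) a (h2 a (Sym2.mem_mk_left a b)) rfl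
  have hd2 : Disjoint ({e : Sym2 V | e ∈ G.edgeSet ∧ ∀ v ∈ e, v ∈ U} ∪ {e : Sym2 V | e ∈ G.edgeSet ∧ ∀ v ∈ e, v ∈ T})
      (X : Set (Sym2 V)) := by
    rw [Set.disjoint_left]
    rintro e (⟨_, h1⟩ | ⟨_, h1⟩) h2
    · rw [Finset.mem_coe, hX, Finset.mem_image] at h2
      obtain ⟨⟨t, u⟩, h3, rfl⟩ := h2
      rw [Finset.mem_filter, Finset.mem_product] at h3
      exact hne t (h1 t (Sym2.mem_mk_left t u)) t h3.1.1 rfl
    · rw [Finset.mem_coe, hX, Finset.mem_image] at h2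
      obtain ⟨⟨t, u⟩, h3, rfl⟩ := h2
      rw [Finset.mem_filter, Finset.mem_product] at h3
      exact hne u h3.1.2 u (h1 u (Sym2.mem_mk_right t u)) rfl
  unfold eN
  rw [hset, Set.ncard_union_eq hd2 (Set.toFinite _) (Set.toFinite _), Set.ncard_union_eq hd1 (Set.toFinite _) (Set.toFinite _),
    Set.ncard_coe_finset, hXc]

theorem cnt3 (V : Type) [Fintype V] [DecidableEq V] (G : SimpleGraph V) [DecidableRel G.Adj] :
    eN G Finset.univ = G.edgeFinset.card := by
  unfold eN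
  rw [← Set.ncard_coe_finset, SimpleGraph.coe_edgeFinset]
  congr 1
  ext e
  simp

theorem cnt4 (V : Type) [Fintype V] (G : SimpleGraph V) (U : Finset V) :
    eN (G.induce (U : Set V)) Finset.univ = eN G U := by
  unfold eN
  have hinj : Function.Injective (Sym2.map (Subtype.val : ↥(U : Set V) → V)) := Sym2.map.injective Subtype.val_injective
  rw [← Set.ncard_image_of_injective _ hinj]
  congr 1
  ext e
  induction e using Sym2.ind with
  | _ a b =>
    constructor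
    · rintro ⟨e', ⟨h1, -⟩, h2⟩
      induction e' using Sym2.ind with
      | _ x y =>
        rw [SimpleGraph.mem_edgeSet] at h1
        rw [Sym2.map_mk, Sym2.eq_iff] at h2
        have h3 : G.Adj x y := h1
        rcases h2 with ⟨rfl, rfl⟩ | ⟨rfl, rfl⟩
        · refine ⟨h3, ?_⟩
          intro v hv
          rw [Sym2.mem_iff] at hv
          rcases hv with rfl | rfl
          · exact x.2
          · exact y.2
        · refine ⟨h3.symm, ?_⟩
          intro v hv
          rw [Sym2.mem_iff] at hv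
          rcases hv with rfl | rfl
          · exact y.2
          · exact x.2
    · rintro ⟨h1, h2⟩
      have ha := h2 a (Sym2.mem_mk_left a b)
      have hb := h2 b (Sym2.mem_mk_right a b)
      exact ⟨s(⟨a, ha⟩, ⟨b, hb⟩), ⟨h1, fun v _ => Finset.mem_univ v⟩, rfl⟩

theorem main : StCnt :=
  ⟨cnt1, cnt2, cnt3, cnt4⟩

end Pool.Agent.Helper82.HY.CNT
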